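import Pool.Agent.U398.MV.Stm8

/-!
# Project MV8, package CI: logarithmic integrals over the square
-/

set_option autoImplicit false

open MeasureTheory Filter Topology Set Pool.Agent.U398.MV

namespace Pool.Agent.U776.MV8.CI

noncomputable section

/-- the kernel -/
def E (c l x y : ℝ) : ℝ := Real.log (c + |x - y| / l)

/-- a primitive of `log ^ 2` -/
def G (w : ℝ) : ℝ := w * Real.log w ^ 2 - 2 * (w * Real.log w) + 2 * w

theorem hasDeriv_G (w : ℝ) (hw : 0 < w) : HasDerivAt G (Real.log w ^ 2) w := by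
  have h1 := Real.hasDerivAt_log hw.ne'
  have h2 := (hasDerivAt_id w).mul (h1.pow 2)
  have h3 := ((hasDerivAt_id w).mul h1).const_mul 2
  have h4 := (hasDerivAt_id w).const_mul 2
  have h5 := (h2.sub h3).add h4
  have h6 : HasDerivAt G _ w := h5
  refine h6.congr_deriv ?_
  simp only [id, Pi.pow_apply]
  field_simp
  ring

theorem G_nonneg (w : ℝ) (hw : 0 < w) : 0 ≤ G w := by
  have : G w = w * ((Real.log w - 1) ^ 2 + 1) := by unfold G; ring
  rw [this]
  positivity

theorem G_le (w : ℝ) (hw : 0 < w) (hw2 : w ≤ 2) : G w ≤ 8 := by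
  rcases le_total w 1 with h | h
  · have h1 := Real.abs_log_mul_self_lt w hw h
    rw [abs_lt] at h1
    have h2 := Real.abs_log_mul_self_lt (√w) (Real.sqrt_pos.2 hw) (Real.sqrt_le_one.2 h)
    have h3 : Real.log w = 2 * Real.log (√w) := by
      rw [Real.log_sqrt hw.le]; ring
    have h4 : w = √w ^ 2 := (Real.sq_sqrt hw.le).symm
    have h5 : w * Real.log w ^ 2 = 4 * (Real.log (√w) * √w) ^ 2 := by
      rw [h3]
      nth_rewrite 1 [h4]
      ring
    have h6 : (Real.log (√w) * √w) ^ 2 ≤ 1 := by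
      rw [← sq_abs]
      have := abs_nonneg (Real.log (√w) * √w)
      nlinarith
    unfold G
    nlinarith
  · have h1 : 0 ≤ Real.log w := Real.log_nonneg h
    have h2 : Real.log w ≤ 1 := by
      have := Real.log_le_sub_one_of_pos hw
      linarith
    have h3 : G w = w * ((Real.log w - 1) ^ 2 + 1) := by unfold G; ring
    rw [h3]
    have h4 : (Real.log w - 1) ^ 2 + 1 ≤ 2 := by nlinarith
    nlinarith

theorem cont_log (c l : ℝ) (hc : 0 < c) (hl : 0 < l) (f : ℝ → ℝ) (hf : Continuous f) (s : Set ℝ)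
    (h0 : ∀ x ∈ s, 0 ≤ f x) : ContinuousOn (fun x => Real.log (c + f x / l) ^ 2) s := by
  apply ContinuousOn.pow
  apply ContinuousOn.log
  · fun_prop
  · intro x hx
    have := h0 x hx
    positivity

theorem left (c l y : ℝ) (hc : 0 < c) (hc1 : c ≤ 1) (hl : 0 < l) (hy0 : 0 ≤ y) (hyl : y ≤ l) :
    ∫ x in (0 : ℝ)..y, E c l x y ^ 2 ≤ 8 * l := by
  have h1 : ∫ x in (0 : ℝ)..y, E c l x y ^ 2 = ∫ x in (0 : ℝ)..y, Real.log (c + (y - x) / l) ^ 2 := by
    apply intervalIntegral.integral_congr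
    intro x hx
    rw [uIcc_of_le hy0] at hx
    simp only [E]
    rw [abs_sub_comm, abs_of_nonneg (by linarith [hx.2])]
  have h2 : ∫ x in (0 : ℝ)..y, Real.log (c + (y - x) / l) ^ 2 =
      (-l * G (c + (y - y) / l)) - (-l * G (c + (y - 0) / l)) := by
    apply intervalIntegral.integral_eq_sub_of_hasDerivAt (f := fun x => -l * G (c + (y - x) / l))
    · intro x hx
      rw [uIcc_of_le hy0] at hx
      have hw : 0 < c + (y - x) / l := by
        have : 0 ≤ (y - x) / l := div_nonneg (by linarith [hx.2]) hl.le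
        linarith
      have h3 : HasDerivAt (fun x => c + (y - x) / l) (-1 / l) x := by
        have := (((hasDerivAt_const x y).sub (hasDerivAt_id x)).div_const l).const_add c
        simpa using this
      have h4 := ((hasDeriv_G _ hw).comp x h3).const_mul (-l)
      have h5 : HasDerivAt (fun x => -l * G (c + (y - x) / l)) _ x := h4
      refine h5.congr_deriv ?_
      field_simp
    · apply ContinuousOn.intervalIntegrable
      rw [uIcc_of_le hy0]
      exact cont_log c l hc hl (fun x => y - x) (by fun_prop) _ (fun x hx => by linarith [hx.2])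
  rw [h1, h2]
  have h5 : 0 ≤ G (c + (y - y) / l) := G_nonneg _ (by simp [hc])
  have h6 : G (c + (y - 0) / l) ≤ 8 := by
    apply G_le
    · have : 0 ≤ (y - 0) / l := div_nonneg (by linarith) hl.le
      linarith
    · have : (y - 0) / l ≤ 1 := by rw [div_le_one hl]; linarith
      linarith
  nlinarith

theorem right (c l y : ℝ) (hc : 0 < c) (hc1 : c ≤ 1) (hl : 0 < l) (hy0 : 0 ≤ y) (hyl : y ≤ l) :
    ∫ x in y..l, E c l x y ^ 2 ≤ 8 * l := by
  have h1 : ∫ x in y..l, E c l x y ^ 2 = ∫ x in y..l, Real.log (c + (x - y) / l) ^ 2 := by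
    apply intervalIntegral.integral_congr
    intro x hx
    rw [uIcc_of_le hyl] at hx
    simp only [E]
    rw [abs_of_nonneg (by linarith [hx.1])]
  have h2 : ∫ x in y..l, Real.log (c + (x - y) / l) ^ 2 =
      (l * G (c + (l - y) / l)) - (l * G (c + (y - y) / l)) := by
    apply intervalIntegral.integral_eq_sub_of_hasDerivAt (f := fun x => l * G (c + (x - y) / l))
    · intro x hx
      rw [uIcc_of_le hyl] at hx
      have hw : 0 < c + (x - y) / l := by
        have : 0 ≤ (x - y) / l := div_nonneg (by linarith [hx.1]) hl.le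
        linarith
      have h3 : HasDerivAt (fun x => c + (x - y) / l) (1 / l) x := by
        have := (((hasDerivAt_id x).sub (hasDerivAt_const x y)).div_const l).const_add c
        simpa using this
      have h4 := ((hasDeriv_G _ hw).comp x h3).const_mul l
      have h5 : HasDerivAt (fun x => l * G (c + (x - y) / l)) _ x := h4
      refine h5.congr_deriv ?_
      field_simp
    · apply ContinuousOn.intervalIntegrable
      rw [uIcc_of_le hyl]
      exact cont_log c l hc hl (fun x => x - y) (by fun_prop) _ (fun x hx => by linarith [hx.1])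
  rw [h1, h2]
  have h5 : 0 ≤ G (c + (y - y) / l) := G_nonneg _ (by simp [hc])
  have h6 : G (c + (l - y) / l) ≤ 8 := by
    apply G_le
    · have : 0 ≤ (l - y) / l := div_nonneg (by linarith) hl.le
      linarith
    · have : (l - y) / l ≤ 1 := by rw [div_le_one hl]; linarith
      linarith
  nlinarith

theorem E_cont2 (c l : ℝ) (hc : 0 < c) (hl : 0 < l) : Continuous (fun p : ℝ × ℝ => E c l p.1 p.2) := by
  unfold E
  apply Continuous.log
  · fun_prop
  · intro p
    have : 0 ≤ |p.1 - p.2| / l := by positivity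
    linarith

theorem E_symm (c l x y : ℝ) : E c l x y = E c l y x := by
  unfold E
  rw [abs_sub_comm]

theorem one (c l y : ℝ) (hc : 0 < c) (hc1 : c ≤ 1) (hl : 0 < l) (hy0 : 0 ≤ y) (hyl : y ≤ l) :
    ∫ x in Icc (0 : ℝ) l, E c l x y ^ 2 ≤ 16 * l := by
  have hcont : Continuous (fun x => E c l x y ^ 2) :=
    ((E_cont2 c l hc hl).comp (by fun_prop : Continuous (fun x : ℝ => (x, y)))).pow 2
  rw [integral_Icc_eq_integral_Ioc, ← intervalIntegral.integral_of_le hl.le,
    ← intervalIntegral.integral_add_adjacent_intervals (hcont.intervalIntegrable 0 y)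
      (hcont.intervalIntegrable y l)]
  have := left c l y hc hc1 hl hy0 hyl
  have := right c l y hc hc1 hl hy0 hyl
  linarith

/-- the uniform probability measure on `[0, l]` -/
def m1 (l : ℝ) : Measure ℝ := ENNReal.ofReal (1 / l) • (volume.restrict (Icc (0 : ℝ) l))

theorem m1_prob (l : ℝ) (hl : 0 < l) : IsProbabilityMeasure (m1 l) := by
  constructor
  unfold m1
  rw [Measure.smul_apply, Measure.restrict_apply_univ, Real.volume_Icc, smul_eq_mul,
    ← ENNReal.ofReal_mul (by positivity)]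
  rw [sub_zero, one_div_mul_cancel hl.ne', ENNReal.ofReal_one]

instance m1_sf (l : ℝ) : SFinite (m1 l) := by unfold m1; infer_instance

theorem mu2_eq (l : ℝ) (hl : 0 < l) : mu2 l = (m1 l).prod (m1 l) := by
  unfold mu2 m1
  rw [Measure.prod_smul_left, Measure.prod_smul_right, smul_smul, Measure.prod_restrict,
    ← ENNReal.ofReal_mul (by positivity), ← Measure.volume_eq_prod]
  congr 2
  field_simp

theorem m1_ae (l : ℝ) : ∀ᵐ x ∂(m1 l), x ∈ Icc (0 : ℝ) l := by
  unfold m1
  apply Measure.ae_smul_measure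
  exact ae_restrict_mem measurableSet_Icc

theorem m1_E (c l y : ℝ) (hc : 0 < c) (hc1 : c ≤ 1) (hl : 0 < l) (hy : y ∈ Icc (0 : ℝ) l) :
    ∫ x, E c l x y ^ 2 ∂(m1 l) ≤ 16 := by
  unfold m1
  rw [integral_smul_measure, ENNReal.toReal_ofReal (by positivity), smul_eq_mul]
  have := one c l y hc hc1 hl hy.1 hy.2
  have h2 : 1 / l * ∫ x in Icc (0 : ℝ) l, E c l x y ^ 2 ≤ 1 / l * (16 * l) :=
    mul_le_mul_of_nonneg_left this (by positivity)
  have h3 : 1 / l * (16 * l) = 16 := by field_simp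
  linarith

theorem int1 (l : ℝ) (f : ℝ → ℝ) (hf : Continuous f) : Integrable f (m1 l) := by
  unfold m1
  exact (hf.integrableOn_Icc).smul_measure ENNReal.ofReal_ne_top

theorem int2 (l : ℝ) (hl : 0 < l) (f : ℝ × ℝ → ℝ) (hf : Continuous f) : Integrable f ((m1 l).prod (m1 l)) := by
  rw [← mu2_eq l hl]
  unfold mu2
  exact (hf.continuousOn.integrableOn_compact (isCompact_Icc.prod isCompact_Icc)).smul_measure
    ENNReal.ofReal_ne_top

theorem prod_ae (l : ℝ) (hl : 0 < l) : ∀ᵐ p ∂((m1 l).prod (m1 l)), p ∈ Icc (0 : ℝ) l ×ˢ Icc (0 : ℝ) l := by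
  rw [← mu2_eq l hl]
  unfold mu2
  apply Measure.ae_smul_measure
  exact ae_restrict_mem (measurableSet_Icc.prod measurableSet_Icc)

theorem fst_E (c l y : ℝ) (hc : 0 < c) (hc1 : c ≤ 1) (hl : 0 < l) (hy : y ∈ Icc (0 : ℝ) l) :
    ∫ q : ℝ × ℝ, E c l q.1 y ^ 2 ∂((m1 l).prod (m1 l)) ≤ 16 := by
  have := m1_prob l hl
  rw [integral_fun_fst (μ := m1 l) (ν := m1 l) (fun x => E c l x y ^ 2)]
  simpa using m1_E c l y hc hc1 hl hy

theorem snd_E (c l y : ℝ) (hc : 0 < c) (hc1 : c ≤ 1) (hl : 0 < l) (hy : y ∈ Icc (0 : ℝ) l) :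
    ∫ q : ℝ × ℝ, E c l q.2 y ^ 2 ∂((m1 l).prod (m1 l)) ≤ 16 := by
  have := m1_prob l hl
  rw [integral_fun_snd (μ := m1 l) (ν := m1 l) (fun x => E c l x y ^ 2)]
  simpa using m1_E c l y hc hc1 hl hy

theorem two_E (c l : ℝ) (hc : 0 < c) (hc1 : c ≤ 1) (hl : 0 < l) :
    ∫ p : ℝ × ℝ, E c l p.1 p.2 ^ 2 ∂((m1 l).prod (m1 l)) ≤ 16 := by
  have := m1_prob l hl
  have hi : Integrable (fun p : ℝ × ℝ => E c l p.1 p.2 ^ 2) ((m1 l).prod (m1 l)) :=
    int2 l hl _ ((E_cont2 c l hc hl).pow 2)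
  rw [integral_prod _ hi]
  refine (le_abs_self _).trans ?_
  have h := norm_integral_le_of_norm_le_const (μ := m1 l) (C := 16)
    (f := fun x => ∫ y, E c l x y ^ 2 ∂(m1 l)) (by
    filter_upwards [m1_ae l] with x hx
    rw [Real.norm_of_nonneg (integral_nonneg (fun y => sq_nonneg _))]
    simp_rw [E_symm c l x]
    exact m1_E c l x hc hc1 hl hx)
  simpa using h

/-- the kernel of the project -/
theorem Vv_eq (T Λ : ℝ) (hT : 10 ≤ T) (hΛ : 1 ≤ Λ) (p : ℝ × ℝ) :
    Vv (Real.log T) p = 1 / Real.pi ^ 2 * (Real.log Λ + E (1 / Λ) (ell T Λ) p.1 p.2) := by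
  have hL : 0 < Real.log T := Real.log_pos (by linarith)
  have hpi := Real.pi_pos
  have hΛ0 : 0 < Λ := by linarith
  unfold Vv E
  congr 1
  rw [← Real.log_mul hΛ0.ne' (by unfold ell; positivity)]
  congr 1
  unfold ell
  field_simp

theorem Vv_bd (T Λ : ℝ) (hT : 10 ≤ T) (hΛ : 1 ≤ Λ) (p : ℝ × ℝ)
    (hp : p ∈ Icc (0 : ℝ) (ell T Λ) ×ˢ Icc (0 : ℝ) (ell T Λ)) :
    0 ≤ Vv (Real.log T) p ∧ Vv (Real.log T) p ≤ 1 + Real.log Λ := by
  have hL : 0 < Real.log T := Real.log_pos (by linarith)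
  have hpi := Real.pi_pos
  have hpi3 := Real.pi_gt_three
  have hΛ0 : 0 < Λ := by linarith
  have hl : 0 < ell T Λ := by unfold ell; positivity
  obtain ⟨⟨h1, h2⟩, h3, h4⟩ := hp
  have hs : |p.1 - p.2| ≤ ell T Λ := by
    rw [abs_le]
    constructor <;> linarith
  have hs2 : |p.1 - p.2| * Real.log T / (2 * Real.pi) ≤ Λ := by
    rw [div_le_iff₀ (by positivity)]
    have : ell T Λ * Real.log T = Λ * (2 * Real.pi) := by
      unfold ell
      field_simp
    rw [← this]
    exact mul_le_mul_of_nonneg_right hs hL.le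
  have hs3 : 0 ≤ |p.1 - p.2| * Real.log T / (2 * Real.pi) := by positivity
  have hlog0 : 0 ≤ Real.log (1 + |p.1 - p.2| * Real.log T / (2 * Real.pi)) := Real.log_nonneg (by linarith)
  have hlog1 : Real.log (1 + |p.1 - p.2| * Real.log T / (2 * Real.pi)) ≤ 1 + Real.log Λ := by
    have e1 : Real.log (1 + |p.1 - p.2| * Real.log T / (2 * Real.pi)) ≤ Real.log (2 * Λ) :=
      Real.log_le_log (by linarith) (by linarith)
    rw [Real.log_mul (by norm_num) hΛ0.ne'] at e1
    have e2 : Real.log 2 ≤ 1 := by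
      have := Real.log_two_lt_d9
      linarith
    linarith
  have hpi2 : 1 / Real.pi ^ 2 ≤ 1 := by
    rw [div_le_one (by positivity)]
    nlinarith
  unfold Vv
  constructor
  · positivity
  · nlinarith [mul_le_mul_of_nonneg_right hpi2 hlog0]

theorem t_CI : S_CI := by
  refine ⟨100, by norm_num, ?_⟩
  intro T Λ hT hΛ
  have hL : 0 < Real.log T := Real.log_pos (by linarith)
  have hpi := Real.pi_pos
  have hpi3 := Real.pi_gt_three
  have hΛ0 : 0 < Λ := by linarith
  have hl : 0 < ell T Λ := by unfold ell; positivity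
  have hpr := m1_prob (ell T Λ) hl
  have hc : 0 < 1 / Λ := by positivity
  have hc1 : 1 / Λ ≤ 1 := by rw [div_le_one hΛ0]; exact hΛ
  have hpi2 : 1 / Real.pi ^ 2 ≤ 1 := by
    rw [div_le_one (by positivity)]
    nlinarith
  have hpi20 : 0 ≤ 1 / Real.pi ^ 2 := by positivity
  have hlogΛ : 0 ≤ Real.log Λ := Real.log_nonneg hΛ
  have hVeq := fun p => Vv_eq T Λ hT hΛ p
  rw [mu2_eq _ hl]
  set l := ell T Λ with hldef
  set c := 1 / Λ with hcdef
  have hE := E_cont2 c l hc hl
  refine ⟨?_, ?_, ?_⟩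
  · have h1 : (∫ p, Vv (Real.log T) p ∂((m1 l).prod (m1 l))) =
        1 / Real.pi ^ 2 * (Real.log Λ + ∫ p : ℝ × ℝ, E c l p.1 p.2 ∂((m1 l).prod (m1 l))) := by
      simp_rw [hVeq]
      rw [integral_const_mul, integral_add (integrable_const _) (int2 l hl _ hE)]
      simp
    have h2 : |∫ p : ℝ × ℝ, E c l p.1 p.2 ∂((m1 l).prod (m1 l))| ≤ 17 := by
      have e1 := norm_integral_le_integral_norm (μ := (m1 l).prod (m1 l)) (fun p : ℝ × ℝ => E c l p.1 p.2)
      have e2 : (∫ p : ℝ × ℝ, ‖E c l p.1 p.2‖ ∂((m1 l).prod (m1 l))) ≤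
          ∫ p : ℝ × ℝ, (1 + E c l p.1 p.2 ^ 2) ∂((m1 l).prod (m1 l)) := by
        have j1 : Integrable (fun p : ℝ × ℝ => ‖E c l p.1 p.2‖) ((m1 l).prod (m1 l)) := int2 l hl _ hE.norm
        have j2 : Integrable (fun p : ℝ × ℝ => 1 + E c l p.1 p.2 ^ 2) ((m1 l).prod (m1 l)) :=
          int2 l hl _ (continuous_const.add (hE.pow 2))
        refine integral_mono j1 j2 fun p => ?_
        simp only [Real.norm_eq_abs]
        rw [← sq_abs]
        nlinarith [sq_nonneg (|E c l p.1 p.2| - 1), abs_nonneg (E c l p.1 p.2)]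
      have hi : Integrable (fun p : ℝ × ℝ => E c l p.1 p.2 ^ 2) ((m1 l).prod (m1 l)) :=
        int2 l hl _ (hE.pow 2)
      rw [integral_add (integrable_const _) hi] at e2
      have e3 := two_E c l hc hc1 hl
      have e4 : (∫ _p : ℝ × ℝ, (1 : ℝ) ∂((m1 l).prod (m1 l))) = 1 := by simp
      rw [Real.norm_eq_abs] at e1
      linarith
    rw [h1]
    have h3 : 1 / 2 * (1 / Real.pi ^ 2 * (Real.log Λ + ∫ p : ℝ × ℝ, E c l p.1 p.2 ∂((m1 l).prod (m1 l)))) -
        Real.log Λ / (2 * Real.pi ^ 2) =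
        1 / 2 * (1 / Real.pi ^ 2 * ∫ p : ℝ × ℝ, E c l p.1 p.2 ∂((m1 l).prod (m1 l))) := by
      field_simp
      ring
    rw [h3, abs_mul, abs_mul, abs_of_nonneg hpi20, abs_of_nonneg (by norm_num : (0 : ℝ) ≤ 1 / 2)]
    have h4 := mul_le_mul hpi2 h2 (abs_nonneg _) (by norm_num)
    linarith
  · have hin : ∀ p ∈ Icc (0 : ℝ) l ×ˢ Icc (0 : ℝ) l,
        (∫ q, Cv (Real.log T) p q ^ 2 ∂((m1 l).prod (m1 l))) ≤ 64 := by
      rintro ⟨x, y⟩ ⟨hx, hy⟩
      simp only at hx hy
      have i1 : Integrable (fun q : ℝ × ℝ => E c l q.2 x ^ 2) ((m1 l).prod (m1 l)) :=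
        int2 l hl _ ((hE.comp (by fun_prop : Continuous (fun q : ℝ × ℝ => (q.2, x)))).pow 2)
      have i2 : Integrable (fun q : ℝ × ℝ => E c l q.1 y ^ 2) ((m1 l).prod (m1 l)) :=
        int2 l hl _ ((hE.comp (by fun_prop : Continuous (fun q : ℝ × ℝ => (q.1, y)))).pow 2)
      have i3 : Integrable (fun q : ℝ × ℝ => E c l q.1 x ^ 2) ((m1 l).prod (m1 l)) :=
        int2 l hl _ ((hE.comp (by fun_prop : Continuous (fun q : ℝ × ℝ => (q.1, x)))).pow 2)
      have i4 : Integrable (fun q : ℝ × ℝ => E c l q.2 y ^ 2) ((m1 l).prod (m1 l)) :=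
        int2 l hl _ ((hE.comp (by fun_prop : Continuous (fun q : ℝ × ℝ => (q.2, y)))).pow 2)
      have i12 : Integrable (fun q : ℝ × ℝ => E c l q.2 x ^ 2 + E c l q.1 y ^ 2) ((m1 l).prod (m1 l)) :=
        i1.add i2
      have i34 : Integrable (fun q : ℝ × ℝ => E c l q.1 x ^ 2 + E c l q.2 y ^ 2) ((m1 l).prod (m1 l)) :=
        i3.add i4
      have i5 : Integrable (fun q : ℝ × ℝ => (E c l q.2 x ^ 2 + E c l q.1 y ^ 2) +
          (E c l q.1 x ^ 2 + E c l q.2 y ^ 2)) ((m1 l).prod (m1 l)) := i12.add i34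
      have e1 : (∫ q, Cv (Real.log T) (x, y) q ^ 2 ∂((m1 l).prod (m1 l))) ≤
          ∫ q : ℝ × ℝ, ((E c l q.2 x ^ 2 + E c l q.1 y ^ 2) +
          (E c l q.1 x ^ 2 + E c l q.2 y ^ 2)) ∂((m1 l).prod (m1 l)) := by
        apply integral_mono_of_nonneg (Filter.Eventually.of_forall fun q => sq_nonneg _) i5
        refine Filter.Eventually.of_forall fun q => ?_
        simp only [Cv, hVeq]
        rw [E_symm c l x q.2, E_symm c l y q.1, E_symm c l x q.1, E_symm c l y q.2]
        generalize E c l q.2 x = A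
        generalize E c l q.1 y = B
        generalize E c l q.1 x = D
        generalize E c l q.2 y = F
        have h1 : 1 / 2 * (1 / Real.pi ^ 2 * (Real.log Λ + A) + 1 / Real.pi ^ 2 * (Real.log Λ + B) -
          1 / Real.pi ^ 2 * (Real.log Λ + D) - 1 / Real.pi ^ 2 * (Real.log Λ + F)) =
          1 / Real.pi ^ 2 * (1 / 2 * (A + B - D - F)) := by ring
        rw [h1, mul_pow]
        have h2 : (1 / Real.pi ^ 2) ^ 2 ≤ 1 := by nlinarith
        have h3 : (1 / 2 * (A + B - D - F)) ^ 2 ≤ (A ^ 2 + B ^ 2) + (D ^ 2 + F ^ 2) := by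
          nlinarith [sq_nonneg (A - B), sq_nonneg (A + D), sq_nonneg (A + F), sq_nonneg (B + D),
            sq_nonneg (B + F), sq_nonneg (D - F)]
        have h4 := mul_le_mul_of_nonneg_right h2 (sq_nonneg (1 / 2 * (A + B - D - F)))
        linarith
      rw [integral_add i12 i34, integral_add i1 i2, integral_add i3 i4] at e1
      have f1 := snd_E c l x hc hc1 hl hx
      have f2 := fst_E c l y hc hc1 hl hy
      have f3 := fst_E c l x hc hc1 hl hx
      have f4 := snd_E c l y hc hc1 hl hy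
      linarith
    refine (le_abs_self _).trans ?_
    have h := norm_integral_le_of_norm_le_const (μ := (m1 l).prod (m1 l)) (C := 64)
      (f := fun p => ∫ q, Cv (Real.log T) p q ^ 2 ∂((m1 l).prod (m1 l))) (by
      filter_upwards [prod_ae l hl] with p hp
      rw [Real.norm_of_nonneg (integral_nonneg (fun y => sq_nonneg _))]
      exact hin p hp)
    rw [Real.norm_eq_abs] at h
    refine h.trans ?_
    simp
    norm_num
  · intro p hp
    obtain ⟨h1, h2⟩ := Vv_bd T Λ hT hΛ p hp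
    exact ⟨h1, by linarith⟩

end

end Pool.Agent.U776.MV8.CI
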